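import Mathlib

set_option autoImplicit false

/-!
# Partial sums of the binomial series on the unit circle, exponent `α ≥ 1`
-/

namespace Pool.Agent.N278.Br

open Finset

/-- binomial coefficient -/
noncomputable def C (α : ℝ) (k : ℕ) : ℝ := (∏ j ∈ range k, (α - (j : ℝ))) / (k.factorial : ℝ)

lemma C_zero (α : ℝ) : C α 0 = 1 := by simp [C]

lemma C_one (α : ℝ) : C α 1 = α := by simp [C]

lemma C_succ (α : ℝ) (k : ℕ) : C α (k + 1) = C α k * (α - k) / (k + 1) := by
  unfold C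
  rw [prod_range_succ, Nat.factorial_succ]
  have : (k.factorial : ℝ) ≠ 0 := by positivity
  have h2 : (k : ℝ) + 1 ≠ 0 := by positivity
  push_cast
  field_simp

/-- partial sum -/
noncomputable def S (α : ℝ) (m : ℕ) (x : ℂ) : ℂ := ∑ k ∈ range (m + 1), (C α k : ℂ) * x ^ k

/-- partial sum at one -/
noncomputable def S1 (α : ℝ) (m : ℕ) : ℝ := ∑ k ∈ range (m + 1), C α k

lemma S_succ (α : ℝ) (m : ℕ) (x : ℂ) : S α (m + 1) x = S α m x + (C α (m + 1) : ℂ) * x ^ (m + 1) := by
  unfold S; rw [sum_range_succ]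

lemma S1_succ (α : ℝ) (m : ℕ) : S1 α (m + 1) = S1 α m + C α (m + 1) := by
  unfold S1; rw [sum_range_succ]

lemma norm_sq_one_sub (x : ℂ) (hx : ‖x‖ = 1) (ρ : ℝ) :
    ‖1 - (ρ : ℂ) * x‖ ^ 2 = (1 - ρ) ^ 2 + 2 * ρ * (1 - x.re) := by
  have h1 : x.re * x.re + x.im * x.im = 1 := by
    have := Complex.normSq_apply x
    rw [Complex.normSq_eq_norm_sq, hx] at this
    linarith
  rw [← Complex.normSq_eq_norm_sq, Complex.normSq_apply]
  simp
  linear_combination ρ ^ 2 * h1

lemma re_le (x : ℂ) (hx : ‖x‖ = 1) : 0 ≤ 1 - x.re ∧ 1 - x.re ≤ 2 := by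
  have h := Complex.abs_re_le_norm x
  rw [hx] at h
  have := abs_le.mp h
  constructor <;> linarith

lemma pair_bound (x : ℂ) (hx : ‖x‖ = 1) (ρ : ℝ) (h0 : 0 ≤ ρ) (h1 : ρ < 1) :
    ‖1 - (ρ : ℂ) * x‖ ≤ (1 - ρ) + ρ * (1 - x.re) / (1 - ρ) := by
  have hd := re_le x hx
  have h2 : 0 < 1 - ρ := by linarith
  have h3 : 0 ≤ ρ * (1 - x.re) / (1 - ρ) := div_nonneg (mul_nonneg h0 hd.1) h2.le
  apply le_of_sq_le_sq _ (by linarith)
  rw [norm_sq_one_sub x hx ρ]
  have h4 : (1 - ρ) * (ρ * (1 - x.re) / (1 - ρ)) = ρ * (1 - x.re) := by field_simp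
  nlinarith [sq_nonneg (ρ * (1 - x.re) / (1 - ρ))]

lemma first_bound (x : ℂ) (hx : ‖x‖ = 1) (α : ℝ) (h0 : 0 ≤ α) :
    ‖1 + (α : ℂ) * x‖ ≤ (1 + α) - α * (1 - x.re) / (1 + α) := by
  have hd := re_le x hx
  have h2 : 0 < 1 + α := by linarith
  have h3 : α * (1 - x.re) / (1 + α) ≤ 1 + α := by
    rw [div_le_iff₀ h2]
    nlinarith [mul_nonneg h0 hd.1, sq_nonneg (α - 1)]
  apply le_of_sq_le_sq _ (by linarith)
  have h5 := norm_sq_one_sub x hx (-α)
  have h6 : (1 : ℂ) - ((-α : ℝ) : ℂ) * x = 1 + (α : ℂ) * x := by push_cast; ring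
  rw [h6] at h5
  rw [h5]
  have h4 : (1 + α) * (α * (1 - x.re) / (1 + α)) = α * (1 - x.re) := by field_simp
  nlinarith [sq_nonneg (α * (1 - x.re) / (1 + α))]

lemma norm_term (x : ℂ) (hx : ‖x‖ = 1) (c : ℝ) (hc : 0 ≤ c) (k : ℕ) : ‖(c : ℂ) * x ^ k‖ = c := by
  rw [norm_mul, norm_pow, hx, one_pow, mul_one, Complex.norm_real, Real.norm_of_nonneg hc]

/-- nonnegative coefficients -/
lemma S_le_of_nonneg (α : ℝ) (m : ℕ) (x : ℂ) (hx : ‖x‖ = 1) (h : ∀ k ≤ m, 0 ≤ C α k) :
    ‖S α m x‖ ≤ S1 α m := by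
  unfold S S1
  refine (norm_sum_le _ _).trans (sum_le_sum fun k hk => ?_)
  rw [norm_term x hx _ (h k (by simpa [Nat.lt_succ_iff] using hk))]

lemma S_le_first (α : ℝ) (h0 : 0 ≤ α) (x : ℂ) (hx : ‖x‖ = 1) (n : ℕ) (hn : 1 ≤ n)
    (h : ∀ k ≤ n, 0 ≤ C α k) :
    ‖S α n x‖ ≤ S1 α n - α * (1 - x.re) / (1 + α) := by
  induction n, hn using Nat.le_induction with
  | base =>
    have e : S α 1 x = 1 + (α : ℂ) * x := by
      unfold S; simp [sum_range_succ, C_zero, C_one]
    have e1 : S1 α 1 = 1 + α := by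
      unfold S1; simp [sum_range_succ, C_zero, C_one]
    rw [e, e1]
    exact first_bound x hx α h0
  | succ n hn ih =>
    have h1 := ih fun k hk => h k (by omega)
    rw [S_succ, S1_succ]
    have h2 := norm_add_le (S α n x) ((C α (n + 1) : ℂ) * x ^ (n + 1))
    rw [norm_term x hx _ (h (n + 1) le_rfl)] at h2
    linarith

/-- sign of the coefficients up to `N + 1` -/
lemma C_nonneg (α : ℝ) (N : ℕ) (hN : (N : ℝ) ≤ α) (k : ℕ) (hk : k ≤ N + 1) : 0 ≤ C α k := by
  unfold C
  apply div_nonneg _ (by positivity)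
  apply prod_nonneg
  intro j hj
  rw [mem_range] at hj
  have : (j : ℝ) ≤ N := by exact_mod_cast (by omega : j ≤ N)
  linarith

lemma prod_bound (α : ℝ) (N : ℕ) (hN : (N : ℝ) ≤ α) (hN1 : α ≤ N + 1) (k : ℕ) (h2 : 2 ≤ k)
    (hk : k ≤ N) :
    (∏ j ∈ range k, (α - (j : ℝ))) * ((N + 1 - k).factorial : ℝ) ≤
      α * (α - 1) * ((N - 1).factorial : ℝ) := by
  induction k, h2 using Nat.le_induction with
  | base =>
    have e : N + 1 - 2 = N - 1 := by omega
    rw [e]
    simp [prod_range_succ]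
  | succ k hk2 ih =>
    have ih := ih (by omega)
    refine le_trans ?_ ih
    obtain ⟨d, hd⟩ : ∃ d, d = N + 1 - (k + 1) := ⟨_, rfl⟩
    have e : N + 1 - k = d + 1 := by omega
    rw [prod_range_succ, e, ← hd, Nat.factorial_succ]
    have h1 : (d : ℝ) + 1 = N + 1 - k := by
      have : d + 1 + k = N + 1 := by omega
      have h' : ((d + 1 + k : ℕ) : ℝ) = ((N + 1 : ℕ) : ℝ) := by rw [this]
      push_cast at h'
      linarith
    push_cast
    rw [h1]
    have hp : 0 ≤ ∏ j ∈ range k, (α - (j : ℝ)) := by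
      apply prod_nonneg
      intro j hj
      rw [mem_range] at hj
      have : (j : ℝ) ≤ N := by exact_mod_cast (by omega : j ≤ N)
      linarith
    have hf : (0 : ℝ) ≤ (d.factorial : ℝ) := by positivity
    have h4 : α - k ≤ (N : ℝ) + 1 - k := by linarith
    have h5 := mul_le_mul_of_nonneg_left h4 (mul_nonneg hp hf)
    nlinarith [h5]

/-- the base inequality -/
lemma base_bound (α : ℝ) (N : ℕ) (h1 : 1 ≤ N) (hN : (N : ℝ) ≤ α) (hN1 : α ≤ N + 1) :
    ((N : ℝ) + 1) * C α (N + 1) * (N + 1 - α) ≤ α * (α - 1) := by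
  have hN' : (1 : ℝ) ≤ N := by exact_mod_cast h1
  have e : ((N : ℝ) + 1) * C α (N + 1) = C α N * (α - N) := by
    rw [C_succ]
    field_simp
  rw [e]
  rcases Nat.lt_or_ge N 2 with h | h
  · have : N = 1 := by omega
    subst this
    rw [C_one]
    push_cast at *
    nlinarith [mul_nonneg (mul_nonneg (by linarith : (0:ℝ) ≤ α) (by linarith : 0 ≤ α - 1))
      (by linarith : 0 ≤ α - 1)]
  · have h3 := prod_bound α N hN hN1 N h le_rfl
    have h4 : N + 1 - N = 1 := by omega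
    rw [h4] at h3
    have h5 : C α N ≤ α * (α - 1) / N := by
      unfold C
      rw [div_le_div_iff₀ (by positivity) (by positivity)]
      have h6 : (N.factorial : ℝ) = N * ((N - 1).factorial : ℝ) := by
        have := Nat.mul_factorial_pred (n := N) (by omega)
        exact_mod_cast this.symm
      rw [h6]
      simp at h3
      nlinarith [h3]
    have h6 : α * (α - 1) / N ≤ α * (α - 1) := by
      apply div_le_self _ hN'
      nlinarith
    have h7 : (α - N) * (N + 1 - α) ≤ 1 := by nlinarith [sq_nonneg (α - N)]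
    have h8 : 0 ≤ (α - N) * (N + 1 - α) := mul_nonneg (by linarith) (by linarith)
    have h9 : 0 ≤ C α N := C_nonneg α N hN N (by omega)
    have h10 : C α N * ((α - N) * (N + 1 - α)) ≤ C α N * 1 := mul_le_mul_of_nonneg_left h7 h9
    linarith

/-- the main induction -/
lemma main_ind (α : ℝ) (N : ℕ) (h1 : 1 ≤ N) (hN : (N : ℝ) < α) (hN1 : α < N + 1) (x : ℂ)
    (hx : ‖x‖ = 1) (i : ℕ) :
    0 ≤ C α (N + 2 * i + 1) ∧
    (1 + α) * (α - 1) * ‖S α (N + 2 * i) x‖ ≤ (1 + α) * (α - 1) * S1 α (N + 2 * i) -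
      (1 - x.re) * ((N + 2 * i + 1 : ℕ) * C α (N + 2 * i + 1) * ((N + 2 * i + 1 : ℕ) - α)) := by
  have hN' : (1 : ℝ) ≤ N := by exact_mod_cast h1
  have hd := re_le x hx
  have ha : 0 < (1 + α) * (α - 1) := mul_pos (by linarith) (by linarith)
  induction i with
  | zero =>
    refine ⟨by simpa using C_nonneg α N hN.le (N + 1) le_rfl, ?_⟩
    have h2 := S_le_first α (by linarith) x hx N h1 fun k hk => C_nonneg α N hN.le k (by omega)
    have h3 := base_bound α N h1 hN.le hN1.le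
    simp only [mul_zero, add_zero]
    push_cast
    have h4 := mul_le_mul_of_nonneg_left h2 ha.le
    have h5 : (1 + α) * (α - 1) * (α * (1 - x.re) / (1 + α)) = (1 - x.re) * (α * (α - 1)) := by
      have : (1 + α) ≠ 0 := by linarith
      field_simp
    have h6 := mul_le_mul_of_nonneg_left h3 hd.1
    have h7 : (1 + α) * (α - 1) * (S1 α N - α * (1 - x.re) / (1 + α)) =
        (1 + α) * (α - 1) * S1 α N - (1 - x.re) * (α * (α - 1)) := by rw [← h5]; ring
    rw [h7] at h4
    linarith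
  | succ i ih =>
    obtain ⟨hc, ih⟩ := ih
    set n := N + 2 * i with hn
    have e : N + 2 * (i + 1) = n + 1 + 1 := by omega
    rw [e]
    have hnN : (N : ℝ) ≤ n := by exact_mod_cast (by omega : N ≤ n)
    have hn1 : (0 : ℝ) < n + 1 - α := by linarith
    set c := C α (n + 1) with hcdef
    have c2 : C α (n + 1 + 1) = -(c * ((n + 1 - α) / (n + 2))) := by
      rw [C_succ, ← hcdef]; push_cast
      have : (n : ℝ) + 1 + 1 ≠ 0 := by positivity
      have : (n : ℝ) + 2 ≠ 0 := by positivity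
      field_simp
      ring
    have c3 : C α (n + 1 + 1 + 1) = c * ((n + 1 - α) / (n + 2)) * ((n + 2 - α) / (n + 3)) := by
      rw [C_succ, c2]; push_cast
      have : (n : ℝ) + 1 + 1 + 1 ≠ 0 := by positivity
      have : (n : ℝ) + 2 ≠ 0 := by positivity
      have : (n : ℝ) + 3 ≠ 0 := by positivity
      field_simp
      ring
    set ρ := ((n : ℝ) + 1 - α) / (n + 2) with hρ
    have hρ0 : 0 ≤ ρ := div_nonneg hn1.le (by positivity)
    have hρ1 : 1 - ρ = (1 + α) / (n + 2) := by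
      rw [hρ]; field_simp; ring
    have hρ2 : ρ < 1 := by
      have : 0 < (1 + α) / ((n : ℝ) + 2) := div_pos (by linarith) (by positivity)
      linarith
    have hq : ρ * (1 - x.re) / (1 - ρ) = (1 - x.re) * (n + 1 - α) / (1 + α) := by
      rw [hρ1, hρ]
      have : 1 + α ≠ 0 := by linarith
      field_simp
    refine ⟨?_, ?_⟩
    · rw [c3]
      apply mul_nonneg (mul_nonneg hc hρ0)
      apply div_nonneg _ (by positivity)
      linarith
    · have e2 : S α (n + 1 + 1) x = S α n x + (c : ℂ) * x ^ (n + 1) * (1 - (ρ : ℂ) * x) := by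
        rw [S_succ, S_succ, c2, ← hcdef]; push_cast; ring
      have e3 : S1 α (n + 1 + 1) = S1 α n + c * (1 - ρ) := by
        rw [S1_succ, S1_succ, c2, ← hcdef]; ring
      have h2 : ‖S α (n + 1 + 1) x‖ ≤ ‖S α n x‖ + c * ‖1 - (ρ : ℂ) * x‖ := by
        rw [e2]
        refine (norm_add_le _ _).trans ?_
        rw [norm_mul, norm_term x hx c hc]
      have h3 := mul_le_mul_of_nonneg_left (pair_bound x hx ρ hρ0 hρ2) hc
      rw [hq] at h3
      have h4 := mul_le_mul_of_nonneg_left (h2.trans (add_le_add_right h3 _)) ha.le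
      rw [e3]
      have h5 : (1 + α) * (α - 1) * (c * ((1 - x.re) * (n + 1 - α) / (1 + α))) =
          (1 - x.re) * (c * (n + 1 - α) * (α - 1)) := by
        have : (1 + α) ≠ 0 := by linarith
        field_simp
      have h6 : (1 + α) * (α - 1) * ‖S α (n + 1 + 1) x‖ ≤
          (1 + α) * (α - 1) * ‖S α n x‖ + (1 + α) * (α - 1) * (c * (1 - ρ)) +
            (1 - x.re) * (c * (n + 1 - α) * (α - 1)) := by
        rw [← h5]
        calc _ ≤ _ := h4
          _ = _ := by ring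
      have h7 : ((n + 1 + 1 + 1 : ℕ) : ℝ) * C α (n + 1 + 1 + 1) * ((n + 1 + 1 + 1 : ℕ) - α) ≤
          c * (n + 1 - α) * (n + 2 - α) := by
        rw [c3, hρ]
        push_cast
        have h8 : ((n : ℝ) + 1 + 1 + 1) * (c * ((n + 1 - α) / (n + 2)) * ((n + 2 - α) / (n + 3))) *
            (n + 1 + 1 + 1 - α) = c * (n + 1 - α) * (n + 2 - α) * ((n + 3 - α) / (n + 2)) := by
          field_simp
          ring
        rw [h8]
        apply mul_le_of_le_one_right
        · exact mul_nonneg (mul_nonneg hc hn1.le) (by linarith)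
        · rw [div_le_one (by positivity)]; linarith
      have h9 := mul_le_mul_of_nonneg_left h7 hd.1
      push_cast at ih h9 ⊢
      nlinarith [ih, h6, h9]

/-- **Exponent at least one.** -/
theorem ge_one (α : ℝ) (hα : 1 ≤ α) (m : ℕ) (x : ℂ) (hx : ‖x‖ = 1) : ‖S α m x‖ ≤ S1 α m := by
  obtain ⟨N, hN⟩ : ∃ N, N = ⌊α⌋₊ := ⟨_, rfl⟩
  have hN0 : (N : ℝ) ≤ α := by rw [hN]; exact Nat.floor_le (by linarith)
  have hN1 : α < N + 1 := by rw [hN]; exact Nat.lt_floor_add_one α
  have h1 : 1 ≤ N := by rw [hN]; exact Nat.le_floor (by exact_mod_cast hα)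
  rcases Nat.lt_or_ge m N with hm | hm
  · exact S_le_of_nonneg α m x hx fun k hk => C_nonneg α N hN0 k (by omega)
  rcases eq_or_lt_of_le hN0 with h | h
  · apply S_le_of_nonneg α m x hx fun k _ => ?_
    rcases Nat.lt_or_ge k (N + 2) with hk | hk
    · exact C_nonneg α N hN0 k (by omega)
    · unfold C
      rw [prod_eq_zero (i := N) (by rw [mem_range]; omega) (by rw [h, sub_self])]
      simp
  · have ha : 0 < (1 + α) * (α - 1) := by
      have : (1 : ℝ) ≤ N := by exact_mod_cast h1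
      exact mul_pos (by linarith) (by linarith)
    have key : ∀ i : ℕ, ‖S α (N + 2 * i) x‖ ≤ S1 α (N + 2 * i) := by
      intro i
      obtain ⟨hc, h2⟩ := main_ind α N h1 h hN1 x hx i
      have h3 : 0 ≤ (1 - x.re) * ((N + 2 * i + 1 : ℕ) * C α (N + 2 * i + 1) *
          ((N + 2 * i + 1 : ℕ) - α)) := by
        apply mul_nonneg (re_le x hx).1
        apply mul_nonneg (mul_nonneg (by positivity) hc)
        push_cast
        have : (0 : ℝ) ≤ i := by positivity
        linarith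
      have h4 : (1 + α) * (α - 1) * ‖S α (N + 2 * i) x‖ ≤
          (1 + α) * (α - 1) * S1 α (N + 2 * i) := by linarith
      exact le_of_mul_le_mul_left h4 ha
    obtain ⟨i, hi | hi⟩ : ∃ i, m = N + 2 * i ∨ m = N + 2 * i + 1 := ⟨(m - N) / 2, by omega⟩
    · rw [hi]; exact key i
    · rw [hi, S_succ, S1_succ]
      have hc := (main_ind α N h1 h hN1 x hx i).1
      refine (norm_add_le _ _).trans ?_
      rw [norm_term x hx _ hc]
      linarith [key i]

end Pool.Agent.N278.Br
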