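import Mathlib

set_option autoImplicit false

/-!
# The integral inequality
-/

namespace Pool.Agent.N278.Br

open intervalIntegral Real

lemma pw_factor (α : ℝ) (h0 : 0 < α) (t : ℝ) (ht0 : 0 ≤ t) (ht1 : t ≤ 1) :
    (1 + t) ^ (α - 1) ≤ 2 ^ α * (2 / (1 + t) ^ 2) := by
  have h1 : 0 < 1 + t := by linarith
  have e : (1 + t) ^ (α - 1) * (1 + t) ^ 2 = (1 + t) ^ (α + 1) := by
    rw [← Real.rpow_natCast (1 + t) 2, ← Real.rpow_add h1]
    congr 1; push_cast; ring
  have e2 : (2 : ℝ) ^ α * 2 = 2 ^ (α + 1) := by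
    rw [Real.rpow_add (by norm_num), Real.rpow_one]
  rw [← mul_div_assoc, le_div_iff₀ (by positivity), e, e2]
  exact Real.rpow_le_rpow h1.le (by linarith) (by linarith)

lemma w_deriv (t : ℝ) (ht : 0 ≤ t) :
    HasDerivAt (fun t : ℝ => (1 - t) / (1 + t)) (-(2 / (1 + t) ^ 2)) t := by
  have h1 : (1 : ℝ) + t ≠ 0 := by linarith
  have h2 : HasDerivAt (fun t : ℝ => 1 - t) (-1) t := by
    simpa using (hasDerivAt_id t).const_sub 1
  have h3 : HasDerivAt (fun t : ℝ => 1 + t) 1 t := by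
    simpa using (hasDerivAt_id t).const_add 1
  refine (h2.fun_div h3 h1).congr_deriv ?_
  field_simp
  ring

lemma split1 (α : ℝ) (m : ℕ) (t : ℝ) (h0 : 0 ≤ t) (h1 : t < 1) :
    (1 - t) ^ m * (1 - t) ^ (α - m - 1) = (1 + t) ^ (α - 1) * ((1 - t) / (1 + t)) ^ (α - 1) := by
  have h2 : 0 < 1 - t := by linarith
  have h3 : 0 < 1 + t := by linarith
  rw [← Real.mul_rpow h3.le (div_nonneg h2.le h3.le), mul_div_cancel₀ _ h3.ne',
    ← Real.rpow_natCast (1 - t) m, ← Real.rpow_add h2]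
  congr 1; ring

lemma split2 (α : ℝ) (m : ℕ) (t : ℝ) (h0 : 0 ≤ t) :
    (1 - t) ^ m * (1 + t) ^ (α - m - 1) = (1 + t) ^ (α - 1) * ((1 - t) / (1 + t)) ^ m := by
  have h3 : 0 < 1 + t := by linarith
  have e : (1 + t) ^ (α - 1) = (1 + t) ^ (m : ℕ) * (1 + t) ^ (α - m - 1) := by
    rw [← Real.rpow_natCast (1 + t) m, ← Real.rpow_add h3]
    congr 1; ring
  rw [e, div_pow]
  field_simp

theorem key_int (α : ℝ) (h0 : 0 < α) (h1 : α < 1) (m : ℕ) (q : ℝ) (hq0 : 0 < q) (hq1 : q ≤ 1)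
    (r : ℝ → ℝ) (hr : ContinuousOn r (Set.Icc 0 1)) (hr1 : ∀ t ∈ Set.Icc (0 : ℝ) 1, 1 - t ≤ r t)
    (hr2 : ∀ t ∈ Set.Icc (0 : ℝ) 1, (1 + t) * q ≤ r t) :
    ∫ t in (0 : ℝ)..1, (1 - t) ^ m * ((r t) ^ (α - m - 1) - (1 + t) ^ (α - m - 1)) ≤
      2 ^ α * (1 - q ^ α) * (1 / α - 1 / (m + 1)) := by
  have hm : (0 : ℝ) ≤ m := by positivity
  have hc : α - m - 1 ≤ 0 := by linarith
  set t0 : ℝ := (1 - q) / (1 + q) with ht0
  have ht0a : 0 ≤ t0 := div_nonneg (by linarith) (by linarith)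
  have ht0b : t0 < 1 := by rw [ht0, div_lt_one (by linarith)]; linarith
  have hwt0 : (1 - t0) / (1 + t0) = q := by
    rw [ht0]
    have : 1 + q ≠ 0 := by linarith
    field_simp
    ring
  have hrpos : ∀ t ∈ Set.Icc (0 : ℝ) 1, 0 < r t := fun t ht =>
    lt_of_lt_of_le (mul_pos (by linarith [ht.1]) hq0) (hr2 t ht)
  set f : ℝ → ℝ := fun t => (1 - t) ^ m * ((r t) ^ (α - m - 1) - (1 + t) ^ (α - m - 1)) with hf
  have hfc : ContinuousOn f (Set.Icc 0 1) := by
    apply ContinuousOn.mul (by fun_prop)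
    apply ContinuousOn.sub
    · exact hr.rpow_const fun t ht => Or.inl (hrpos t ht).ne'
    · apply ContinuousOn.rpow_const (by fun_prop)
      intro t ht
      left
      have := ht.1
      linarith
  have hf01 : ∀ a b, a ∈ Set.Icc (0 : ℝ) 1 → b ∈ Set.Icc (0 : ℝ) 1 →
      IntervalIntegrable f MeasureTheory.volume a b := by
    intro a b ha hb
    apply ContinuousOn.intervalIntegrable
    exact hfc.mono (Set.uIcc_subset_Icc ha hb)
  -- first interval
  set F1 : ℝ → ℝ := fun t => -(2 ^ α * (((1 - t) / (1 + t)) ^ α / α -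
    ((1 - t) / (1 + t)) ^ (m + 1) / (m + 1))) with hF1
  set g1 : ℝ → ℝ := fun t => 2 ^ α * (2 / (1 + t) ^ 2) *
    (((1 - t) / (1 + t)) ^ (α - 1) - ((1 - t) / (1 + t)) ^ m) with hg1
  have hF1d : ∀ t ∈ Set.uIcc (0 : ℝ) t0, HasDerivAt F1 (g1 t) t := by
    intro t ht
    rw [Set.uIcc_of_le ht0a] at ht
    have hw : 0 < (1 - t) / (1 + t) := div_pos (by linarith [ht.2]) (by linarith [ht.1])
    have hd := w_deriv t ht.1
    have hd1 := (hd.rpow_const (p := α) (Or.inl hw.ne')).div_const α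
    have hd2 := (hd.fun_pow (m + 1)).div_const ((m : ℝ) + 1)
    refine ((hd1.fun_sub hd2).const_mul (2 ^ α)).fun_neg.congr_deriv ?_
    simp only [hg1, Nat.add_sub_cancel]
    push_cast
    have : (m : ℝ) + 1 ≠ 0 := by positivity
    field_simp
    ring
  have hg1c : ContinuousOn g1 (Set.uIcc 0 t0) := by
    rw [Set.uIcc_of_le ht0a]
    apply ContinuousOn.mul
    · apply ContinuousOn.mul continuousOn_const
      apply ContinuousOn.div continuousOn_const (by fun_prop)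
      intro t ht
      have := ht.1
      positivity
    · have hwc : ContinuousOn (fun t : ℝ => (1 - t) / (1 + t)) (Set.Icc 0 t0) := by
        apply ContinuousOn.div (by fun_prop) (by fun_prop)
        intro t ht
        have := ht.1
        positivity
      apply ContinuousOn.sub
      · apply hwc.rpow_const
        intro t ht
        left
        exact (div_pos (by linarith [ht.2]) (by linarith [ht.1])).ne'
      · exact hwc.pow m
  have hI1 : ∫ t in (0 : ℝ)..t0, f t ≤ F1 t0 - F1 0 := by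
    rw [← integral_eq_sub_of_hasDerivAt hF1d hg1c.intervalIntegrable]
    apply integral_mono_on ht0a (hf01 0 t0 ⟨le_rfl, zero_le_one⟩ ⟨ht0a, ht0b.le⟩)
      hg1c.intervalIntegrable
    intro t ht
    have ht1 : t < 1 := lt_of_le_of_lt ht.2 ht0b
    have h2 : 0 < 1 - t := by linarith
    have h3 : 0 < 1 + t := by linarith [ht.1]
    have hw : 0 < (1 - t) / (1 + t) := div_pos h2 h3
    have hw1 : (1 - t) / (1 + t) ≤ 1 := by rw [div_le_one h3]; linarith [ht.1]
    have ha : (r t) ^ (α - m - 1) ≤ (1 - t) ^ (α - m - 1) :=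
      Real.rpow_le_rpow_of_nonpos h2 (hr1 t ⟨ht.1, ht1.le⟩) hc
    have hb : f t ≤ (1 + t) ^ (α - 1) * (((1 - t) / (1 + t)) ^ (α - 1) -
        ((1 - t) / (1 + t)) ^ m) := by
      simp only [hf]
      rw [mul_sub, mul_sub, ← split1 α m t ht.1 ht1, ← split2 α m t ht.1]
      have := mul_le_mul_of_nonneg_left ha (pow_nonneg h2.le m)
      linarith
    refine hb.trans ?_
    simp only [hg1]
    apply mul_le_mul_of_nonneg_right (pw_factor α h0 t ht.1 ht1.le)
    rw [sub_nonneg, ← Real.rpow_natCast]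
    exact Real.rpow_le_rpow_of_exponent_ge hw hw1 (by linarith)
  -- second interval
  set κ : ℝ := q ^ (α - m - 1) - 1 with hκ
  have hκ0 : 0 ≤ κ := by
    rw [hκ, sub_nonneg]
    exact Real.one_le_rpow_of_pos_of_le_one_of_nonpos hq0 hq1 hc
  set F2 : ℝ → ℝ := fun t => -(2 ^ α * (((1 - t) / (1 + t)) ^ (m + 1) / (m + 1) * κ)) with hF2
  set g2 : ℝ → ℝ := fun t => 2 ^ α * (2 / (1 + t) ^ 2) * (((1 - t) / (1 + t)) ^ m * κ) with hg2
  have hF2d : ∀ t ∈ Set.uIcc t0 1, HasDerivAt F2 (g2 t) t := by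
    intro t ht
    rw [Set.uIcc_of_le ht0b.le] at ht
    have ht' : 0 ≤ t := ht0a.trans ht.1
    have hd := w_deriv t ht'
    have hd2 := (((hd.fun_pow (m + 1)).div_const ((m : ℝ) + 1)).mul_const κ)
    refine (hd2.const_mul (2 ^ α)).fun_neg.congr_deriv ?_
    simp only [hg2, Nat.add_sub_cancel]
    push_cast
    have : (m : ℝ) + 1 ≠ 0 := by positivity
    field_simp
  have hg2c : ContinuousOn g2 (Set.uIcc t0 1) := by
    rw [Set.uIcc_of_le ht0b.le]
    apply ContinuousOn.mul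
    · apply ContinuousOn.mul continuousOn_const
      apply ContinuousOn.div continuousOn_const (by fun_prop)
      intro t ht
      have := ht0a.trans ht.1
      positivity
    · apply ContinuousOn.mul _ continuousOn_const
      apply ContinuousOn.pow
      apply ContinuousOn.div (by fun_prop) (by fun_prop)
      intro t ht
      have := ht0a.trans ht.1
      positivity
  have hI2 : ∫ t in t0..1, f t ≤ F2 1 - F2 t0 := by
    rw [← integral_eq_sub_of_hasDerivAt hF2d hg2c.intervalIntegrable]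
    apply integral_mono_on ht0b.le (hf01 t0 1 ⟨ht0a, ht0b.le⟩ ⟨zero_le_one, le_rfl⟩)
      hg2c.intervalIntegrable
    intro t ht
    have ht' : 0 ≤ t := ht0a.trans ht.1
    have h2 : 0 ≤ 1 - t := by linarith [ht.2]
    have h3 : 0 < 1 + t := by linarith
    have hw : 0 ≤ (1 - t) / (1 + t) := div_nonneg h2 h3.le
    have ha : (r t) ^ (α - m - 1) ≤ ((1 + t) * q) ^ (α - m - 1) :=
      Real.rpow_le_rpow_of_nonpos (mul_pos h3 hq0) (hr2 t ⟨ht', ht.2⟩) hc
    have hb : f t ≤ (1 + t) ^ (α - 1) * (((1 - t) / (1 + t)) ^ m * κ) := by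
      simp only [hf]
      rw [← mul_assoc, ← split2 α m t ht', hκ]
      rw [Real.mul_rpow h3.le hq0.le] at ha
      have := mul_le_mul_of_nonneg_left ha (pow_nonneg h2 m)
      nlinarith [this]
    refine hb.trans ?_
    simp only [hg2]
    exact mul_le_mul_of_nonneg_right (pw_factor α h0 t ht' ht.2) (mul_nonneg (pow_nonneg hw m) hκ0)
  have hsum : ∫ t in (0 : ℝ)..1, f t = (∫ t in (0 : ℝ)..t0, f t) + ∫ t in t0..1, f t :=
    (integral_add_adjacent_intervals (hf01 0 t0 ⟨le_rfl, zero_le_one⟩ ⟨ht0a, ht0b.le⟩)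
      (hf01 t0 1 ⟨ht0a, ht0b.le⟩ ⟨zero_le_one, le_rfl⟩)).symm
  rw [hsum]
  refine (add_le_add hI1 hI2).trans (le_of_eq ?_)
  simp only [hF1, hF2, hwt0]
  have e1 : (1 - (1 : ℝ)) / (1 + 1) = 0 := by norm_num
  have e2 : (1 - (0 : ℝ)) / (1 + 0) = 1 := by norm_num
  rw [e1, e2, hκ]
  have e3 : q ^ (m + 1) * q ^ (α - m - 1) = q ^ α := by
    rw [← Real.rpow_natCast q (m + 1), ← Real.rpow_add hq0]
    congr 1; push_cast; ring
  have hm1 : (m : ℝ) + 1 ≠ 0 := by positivity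
  simp only [Real.one_rpow, one_pow, ne_eq, Nat.add_eq_zero_iff, one_ne_zero, and_false,
    not_false_eq_true, zero_pow, zero_div, zero_mul, mul_zero, neg_zero]
  field_simp
  linear_combination (2 ^ α * α) * e3

end Pool.Agent.N278.Br
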