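import Mathlib
import Pool.Agent.N278.Br.Disc

set_option autoImplicit false

/-!
# Taylor formula for `(1 + x)^α` with integral remainder on the unit circle
-/

namespace Pool.Agent.N278.Br

open Finset intervalIntegral

lemma one_add_re_pos (x : ℂ) (hx : ‖x‖ = 1) (hx1 : x ≠ -1) (t : ℝ) (h0 : 0 ≤ t) (h1 : t ≤ 1) :
    0 < 1 + t * x.re := by
  have h := re_le x hx
  have h2 : x.re * x.re + x.im * x.im = 1 := by
    have := Complex.normSq_apply x
    rw [Complex.normSq_eq_norm_sq, hx] at this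
    linarith
  have h3 := (abs_le.mp ((Complex.abs_re_le_norm x).trans hx.le)).1
  have h4 : -1 < x.re := by
    rcases eq_or_lt_of_le h3 with h4 | h4
    · exfalso
      apply hx1
      have h5 : x.im = 0 := by
        have : x.im * x.im = 0 := by rw [← h4] at h2; linarith
        simpa using this
      apply Complex.ext
      · simp [← h4]
      · simp [h5]
    · exact h4
  rcases le_or_gt 0 x.re with h5 | h5
  · have := mul_nonneg h0 h5
    linarith
  · nlinarith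

lemma mem_slit (x : ℂ) (hx : ‖x‖ = 1) (hx1 : x ≠ -1) (t : ℝ) (h0 : 0 ≤ t) (h1 : t ≤ 1) :
    1 + (t : ℂ) * x ∈ Complex.slitPlane := by
  left
  have := one_add_re_pos x hx hx1 t h0 h1
  simpa using this

/-- derivative of `t ↦ (1 + t x)^c` -/
lemma hasDeriv_cpow (x : ℂ) (hx : ‖x‖ = 1) (hx1 : x ≠ -1) (c : ℂ) (t : ℝ) (h0 : 0 ≤ t)
    (h1 : t ≤ 1) :
    HasDerivAt (fun t : ℝ => (1 + (t : ℂ) * x) ^ c) (c * (1 + (t : ℂ) * x) ^ (c - 1) * x) t := by
  have h : HasDerivAt (fun z : ℂ => 1 + z * x) x (t : ℂ) := by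
    have := (hasDerivAt_id (t : ℂ)).mul_const x
    simpa using this.const_add 1
  exact (h.cpow_const (c := c) (mem_slit x hx hx1 t h0 h1)).comp_ofReal

noncomputable def J (α : ℝ) (x : ℂ) (m : ℕ) : ℂ :=
  ∫ t in (0 : ℝ)..1, (1 - (t : ℂ)) ^ m * (1 + (t : ℂ) * x) ^ ((α : ℂ) - m - 1)

lemma cont_cpow (x : ℂ) (hx : ‖x‖ = 1) (hx1 : x ≠ -1) (c : ℂ) :
    ContinuousOn (fun t : ℝ => (1 + (t : ℂ) * x) ^ c) (Set.Icc 0 1) := fun t ht =>
  (hasDeriv_cpow x hx hx1 c t ht.1 ht.2).continuousAt.continuousWithinAt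

lemma J_int (x : ℂ) (hx : ‖x‖ = 1) (hx1 : x ≠ -1) (m : ℕ) (c : ℂ) :
    IntervalIntegrable (fun t : ℝ => (1 - (t : ℂ)) ^ m * (1 + (t : ℂ) * x) ^ c)
      MeasureTheory.volume 0 1 := by
  apply ContinuousOn.intervalIntegrable
  rw [Set.uIcc_of_le zero_le_one]
  apply ContinuousOn.mul _ (cont_cpow x hx hx1 c)
  apply Continuous.continuousOn
  fun_prop

lemma J_step (α : ℝ) (x : ℂ) (hx : ‖x‖ = 1) (hx1 : x ≠ -1) (m : ℕ) :
    ((m : ℂ) + 1) * J α x m = 1 + ((α : ℂ) - m - 1) * x * J α x (m + 1) := by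
  have hder : ∀ t ∈ Set.uIcc (0 : ℝ) 1, HasDerivAt
      (fun t : ℝ => (1 - (t : ℂ)) ^ (m + 1) * (1 + (t : ℂ) * x) ^ ((α : ℂ) - m - 1))
      (-((m : ℂ) + 1) * ((1 - (t : ℂ)) ^ m * (1 + (t : ℂ) * x) ^ ((α : ℂ) - m - 1)) +
        ((α : ℂ) - m - 1) * x * ((1 - (t : ℂ)) ^ (m + 1) *
          (1 + (t : ℂ) * x) ^ ((α : ℂ) - (m + 1 : ℕ) - 1))) t := by
    intro t ht
    rw [Set.uIcc_of_le zero_le_one] at ht
    have h1 : HasDerivAt (fun t : ℝ => 1 - (t : ℂ)) (-1) t := by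
      have := (Complex.ofRealCLM.hasDerivAt (x := t)).const_sub 1
      simpa using this
    have h2 := h1.fun_pow (m + 1)
    have h3 := h2.fun_mul (hasDeriv_cpow x hx hx1 ((α : ℂ) - m - 1) t ht.1 ht.2)
    refine h3.congr_deriv ?_
    simp only [Nat.add_sub_cancel]
    push_cast
    have e : (α : ℂ) - (m + 1) - 1 = (α : ℂ) - m - 1 - 1 := by ring
    rw [e]
    ring
  have hint : IntervalIntegrable (fun t : ℝ =>
      -((m : ℂ) + 1) * ((1 - (t : ℂ)) ^ m * (1 + (t : ℂ) * x) ^ ((α : ℂ) - m - 1)) +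
        ((α : ℂ) - m - 1) * x * ((1 - (t : ℂ)) ^ (m + 1) *
          (1 + (t : ℂ) * x) ^ ((α : ℂ) - (m + 1 : ℕ) - 1))) MeasureTheory.volume 0 1 :=
    ((J_int x hx hx1 m _).const_mul _).add ((J_int x hx hx1 (m + 1) _).const_mul _)
  have h := integral_eq_sub_of_hasDerivAt hder hint
  rw [integral_add ((J_int x hx hx1 m _).const_mul _)
    ((J_int x hx hx1 (m + 1) _).const_mul _), integral_const_mul, integral_const_mul] at h
  simp at h
  unfold J
  push_cast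
  linear_combination -h

lemma J_base (α : ℝ) (x : ℂ) (hx : ‖x‖ = 1) (hx1 : x ≠ -1) :
    (1 + x) ^ (α : ℂ) = 1 + (α : ℂ) * x * J α x 0 := by
  have hder : ∀ t ∈ Set.uIcc (0 : ℝ) 1, HasDerivAt
      (fun t : ℝ => (1 + (t : ℂ) * x) ^ (α : ℂ))
      ((α : ℂ) * x * ((1 - (t : ℂ)) ^ 0 * (1 + (t : ℂ) * x) ^ ((α : ℂ) - (0 : ℕ) - 1))) t := by
    intro t ht
    rw [Set.uIcc_of_le zero_le_one] at ht
    refine (hasDeriv_cpow x hx hx1 (α : ℂ) t ht.1 ht.2).congr_deriv ?_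
    simp
    ring
  have h := integral_eq_sub_of_hasDerivAt hder ((J_int x hx hx1 0 _).const_mul _)
  rw [integral_const_mul] at h
  unfold J
  rw [h]
  simp

theorem taylor (α : ℝ) (x : ℂ) (hx : ‖x‖ = 1) (hx1 : x ≠ -1) (m : ℕ) :
    (1 + x) ^ (α : ℂ) = S α m x + ((m : ℂ) + 1) * (C α (m + 1) : ℂ) * x ^ (m + 1) * J α x m := by
  induction m with
  | zero =>
    rw [J_base α x hx hx1]
    have e : S α 0 x = 1 := by unfold S; simp [C_zero]
    rw [e, C_one]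
    push_cast
    ring
  | succ m ih =>
    rw [ih, S_succ]
    have h := J_step α x hx hx1 m
    have hc : (C α (m + 1 + 1) : ℂ) * ((m : ℂ) + 1 + 1) = (C α (m + 1) : ℂ) * ((α : ℂ) - (m + 1)) := by
      have h1 : C α (m + 1 + 1) * ((m : ℝ) + 1 + 1) = C α (m + 1) * (α - (m + 1)) := by
        rw [C_succ α (m + 1)]
        push_cast
        have : (m : ℝ) + 1 + 1 ≠ 0 := by positivity
        field_simp
      exact_mod_cast h1
    push_cast
    linear_combination (C α (m + 1) : ℂ) * x ^ (m + 1) * h - x ^ (m + 1 + 1) * J α x (m + 1) * hc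

end Pool.Agent.N278.Br
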