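import Mathlib
import Pool.Agent.N278.Br.Disc
import Pool.Agent.N278.Br.Tay
import Pool.Agent.N278.Br.Int

set_option autoImplicit false

/-!
# Partial sums of the binomial series on the unit circle, exponent in `(0,1)`, odd order
-/

namespace Pool.Agent.N278.Br

open Finset intervalIntegral

lemma coeff_sign (α : ℝ) (h0 : 0 < α) (h1 : α < 1) (k : ℕ) :
    ∃ b : ℝ, 0 ≤ b ∧ C α (k + 1) = (-1) ^ k * b ∧ b * (k + 1 - α) ≤ α := by
  induction k with
  | zero =>
    refine ⟨α, h0.le, by simp [C_one], ?_⟩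
    push_cast
    nlinarith
  | succ k ih =>
    obtain ⟨b, hb, e, hb2⟩ := ih
    have hk : (0 : ℝ) ≤ k := by positivity
    refine ⟨b * (k + 1 - α) / (k + 2), div_nonneg (mul_nonneg hb (by linarith)) (by positivity),
      ?_, ?_⟩
    · rw [C_succ, e]
      push_cast
      have : (k : ℝ) + 1 + 1 ≠ 0 := by positivity
      have : (k : ℝ) + 2 ≠ 0 := by positivity
      field_simp
      ring
    · push_cast
      have e2 : b * (k + 1 - α) / (k + 2) * (k + 1 + 1 - α) =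
          b * (k + 1 - α) * ((k + 2 - α) / (k + 2)) := by
        have : (k : ℝ) + 2 ≠ 0 := by positivity
        field_simp
        ring
      rw [e2]
      refine le_trans (mul_le_of_le_one_right (mul_nonneg hb (by linarith)) ?_) hb2
      rw [div_le_one (by positivity)]
      linarith

lemma dist_bound (x : ℂ) (hx : ‖x‖ = 1) (t : ℝ) (h0 : 0 ≤ t) (h1 : t ≤ 1) :
    1 - t ≤ ‖1 + (t : ℂ) * x‖ ∧ (1 + t) * (‖1 + x‖ / 2) ≤ ‖1 + (t : ℂ) * x‖ := by
  have hd := re_le x hx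
  constructor
  · have h := norm_sub_norm_le (1 : ℂ) (-((t : ℂ) * x))
    rw [sub_neg_eq_add, norm_neg, norm_mul, hx, Complex.norm_real, Real.norm_of_nonneg h0] at h
    simpa using h
  · apply le_of_sq_le_sq _ (norm_nonneg _)
    have h2 := norm_sq_one_sub x hx (-t)
    have h3 := norm_sq_one_sub x hx (-1)
    have e2 : (1 : ℂ) - ((-t : ℝ) : ℂ) * x = 1 + (t : ℂ) * x := by push_cast; ring
    have e3 : (1 : ℂ) - ((-1 : ℝ) : ℂ) * x = 1 + x := by push_cast; ring
    rw [e2] at h2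
    rw [e3] at h3
    rw [mul_pow, div_pow, h2, h3]
    nlinarith [mul_nonneg (sq_nonneg (1 - t)) hd.1]

lemma real_case (α : ℝ) (m : ℕ) :
    (2 : ℝ) ^ α = S1 α m + ((m : ℝ) + 1) * C α (m + 1) *
      ∫ t in (0 : ℝ)..1, (1 - t) ^ m * (1 + t) ^ (α - m - 1) := by
  have h := taylor α 1 (by simp) (by norm_num [Complex.ext_iff]) m
  have e1 : S α m 1 = ((S1 α m : ℝ) : ℂ) := by
    unfold S S1; push_cast; simp
  have e2 : J α 1 m = ((∫ t in (0 : ℝ)..1, (1 - t) ^ m * (1 + t) ^ (α - m - 1) : ℝ) : ℂ) := by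
    unfold J
    rw [← intervalIntegral.integral_ofReal]
    apply intervalIntegral.integral_congr
    intro t ht
    rw [Set.uIcc_of_le zero_le_one] at ht
    have h3 : (0 : ℝ) ≤ 1 + t := by linarith [ht.1]
    simp only
    rw [Complex.ofReal_mul, Complex.ofReal_cpow h3]
    push_cast
    simp
  have e3 : ((1 : ℂ) + 1) ^ (α : ℂ) = (((2 : ℝ) ^ α : ℝ) : ℂ) := by
    rw [Complex.ofReal_cpow (by norm_num)]
    norm_num
  rw [e1, e2, e3] at h
  have h4 : (((2 : ℝ) ^ α : ℝ) : ℂ) = ((S1 α m + ((m : ℝ) + 1) * C α (m + 1) *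
      ∫ t in (0 : ℝ)..1, (1 - t) ^ m * (1 + t) ^ (α - m - 1) : ℝ) : ℂ) := by
    rw [h]; push_cast; ring
  exact_mod_cast h4

lemma lt_one_ne (α : ℝ) (h0 : 0 < α) (h1 : α < 1) (m : ℕ) (hm : Odd m) (x : ℂ) (hx : ‖x‖ = 1)
    (hx1 : x ≠ -1) : ‖S α m x‖ ≤ S1 α m := by
  obtain ⟨b, hb, hC, hb2⟩ := coeff_sign α h0 h1 m
  rw [hm.neg_one_pow] at hC
  have hq0 : 0 < ‖1 + x‖ / 2 := by
    apply div_pos _ two_pos
    rw [norm_pos_iff]
    intro h
    apply hx1
    linear_combination h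
  have hq1 : ‖1 + x‖ / 2 ≤ 1 := by
    have := norm_add_le (1 : ℂ) x
    rw [hx, norm_one] at this
    linarith
  have hcont : ContinuousOn (fun t : ℝ => ‖1 + (t : ℂ) * x‖) (Set.Icc 0 1) := by fun_prop
  have hpos : ∀ t ∈ Set.Icc (0 : ℝ) 1, 0 < ‖1 + (t : ℂ) * x‖ := fun t ht =>
    lt_of_lt_of_le (mul_pos (by linarith [ht.1]) hq0) (dist_bound x hx t ht.1 ht.2).2
  have hk := key_int α h0 h1 m (‖1 + x‖ / 2) hq0 hq1 (fun t => ‖1 + (t : ℂ) * x‖) hcont
    (fun t ht => (dist_bound x hx t ht.1 ht.2).1) (fun t ht => (dist_bound x hx t ht.1 ht.2).2)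
  -- the norm of the remainder integral
  have hi1 : IntervalIntegrable (fun t : ℝ => (1 - t) ^ m * ‖1 + (t : ℂ) * x‖ ^ (α - m - 1))
      MeasureTheory.volume 0 1 := by
    apply ContinuousOn.intervalIntegrable
    rw [Set.uIcc_of_le zero_le_one]
    apply ContinuousOn.mul (by fun_prop)
    exact hcont.rpow_const fun t ht => Or.inl (hpos t ht).ne'
  have hi2 : IntervalIntegrable (fun t : ℝ => (1 - t) ^ m * (1 + t) ^ (α - m - 1))
      MeasureTheory.volume 0 1 := by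
    apply ContinuousOn.intervalIntegrable
    rw [Set.uIcc_of_le zero_le_one]
    apply ContinuousOn.mul (by fun_prop)
    apply ContinuousOn.rpow_const (by fun_prop)
    intro t ht
    left
    have := ht.1
    linarith
  have hJ : ‖J α x m‖ ≤ ∫ t in (0 : ℝ)..1, (1 - t) ^ m * ‖1 + (t : ℂ) * x‖ ^ (α - m - 1) := by
    unfold J
    apply intervalIntegral.norm_integral_le_of_norm_le zero_le_one _ hi1
    filter_upwards with t ht
    have h2 : 0 ≤ 1 - t := by linarith [ht.2]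
    have e : (α : ℂ) - m - 1 = ((α - m - 1 : ℝ) : ℂ) := by push_cast; ring
    rw [norm_mul, norm_pow, e, Complex.norm_cpow_real]
    have e2 : ‖(1 : ℂ) - (t : ℂ)‖ = 1 - t := by
      rw [← Complex.ofReal_one, ← Complex.ofReal_sub, Complex.norm_real, Real.norm_of_nonneg h2]
    rw [e2]
  set j := ∫ t in (0 : ℝ)..1, (1 - t) ^ m * (1 + t) ^ (α - m - 1) with hj
  have hk2 : ∫ t in (0 : ℝ)..1, (1 - t) ^ m * ‖1 + (t : ℂ) * x‖ ^ (α - m - 1) ≤
      j + 2 ^ α * (1 - (‖1 + x‖ / 2) ^ α) * (1 / α - 1 / (m + 1)) := by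
    have e : ∫ t in (0 : ℝ)..1, (1 - t) ^ m * (‖1 + (t : ℂ) * x‖ ^ (α - m - 1) -
        (1 + t) ^ (α - m - 1)) =
        (∫ t in (0 : ℝ)..1, (1 - t) ^ m * ‖1 + (t : ℂ) * x‖ ^ (α - m - 1)) - j := by
      rw [hj, ← intervalIntegral.integral_sub hi1 hi2]
      apply intervalIntegral.integral_congr
      intro t _
      simp only
      ring
    rw [e] at hk
    linarith
  have hS : S α m x = (1 + x) ^ (α : ℂ) + ((m : ℂ) + 1) * (b : ℂ) * x ^ (m + 1) * J α x m := by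
    have h := taylor α x hx hx1 m
    rw [hC] at h
    push_cast at h
    linear_combination -h
  have hn : ‖S α m x‖ ≤ ‖1 + x‖ ^ α + ((m : ℝ) + 1) * b * ‖J α x m‖ := by
    rw [hS]
    refine (norm_add_le _ _).trans ?_
    rw [Complex.norm_cpow_real, norm_mul, norm_mul, norm_mul, norm_pow, hx, one_pow, mul_one,
      Complex.norm_real, Real.norm_of_nonneg hb]
    have e : ‖(m : ℂ) + 1‖ = (m : ℝ) + 1 := by
      have : (m : ℂ) + 1 = ((m + 1 : ℕ) : ℂ) := by push_cast; ring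
      rw [this, Complex.norm_natCast]
      push_cast; ring
    rw [e]
  have h2q : ‖1 + x‖ ^ α = 2 ^ α * (‖1 + x‖ / 2) ^ α := by
    rw [← Real.mul_rpow (by norm_num) hq0.le]
    congr 1
    ring
  have hr := real_case α m
  rw [hC, ← hj] at hr
  have hmb : 0 ≤ ((m : ℝ) + 1) * b := by positivity
  have h3 := mul_le_mul_of_nonneg_left (hJ.trans hk2) hmb
  have h4 : ((m : ℝ) + 1) * b * (1 / α - 1 / (m + 1)) ≤ 1 := by
    have e : ((m : ℝ) + 1) * b * (1 / α - 1 / (m + 1)) = b * (m + 1 - α) / α := by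
      field_simp
    rw [e, div_le_one h0]
    exact hb2
  have h5 : 0 ≤ 2 ^ α * (1 - (‖1 + x‖ / 2) ^ α) := by
    apply mul_nonneg (by positivity)
    rw [sub_nonneg]
    exact Real.rpow_le_one hq0.le hq1 h0.le
  have h6 := mul_le_mul_of_nonneg_left h4 h5
  have e7 : ((m : ℝ) + 1) * b * (j + 2 ^ α * (1 - (‖1 + x‖ / 2) ^ α) * (1 / α - 1 / (m + 1))) =
      ((m : ℝ) + 1) * b * j + 2 ^ α * (1 - (‖1 + x‖ / 2) ^ α) *
        (((m : ℝ) + 1) * b * (1 / α - 1 / (m + 1))) := by ring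
  rw [e7] at h3
  linarith

theorem lt_one (α : ℝ) (h0 : 0 < α) (h1 : α < 1) (m : ℕ) (hm : Odd m) (x : ℂ) (hx : ‖x‖ = 1) :
    ‖S α m x‖ ≤ S1 α m := by
  by_cases hx1 : x = -1
  · subst hx1
    have hc : Continuous fun θ : ℝ => ‖S α m (Complex.exp (θ * Complex.I))‖ := by
      unfold S; fun_prop
    have hcl : IsClosed {θ : ℝ | ‖S α m (Complex.exp (θ * Complex.I))‖ ≤ S1 α m} :=
      isClosed_le hc continuous_const
    have hsub : Set.Ioo 0 Real.pi ⊆ {θ : ℝ | ‖S α m (Complex.exp (θ * Complex.I))‖ ≤ S1 α m} := by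
      intro θ hθ
      apply lt_one_ne α h0 h1 m hm _ (by rw [Complex.norm_exp_ofReal_mul_I])
      intro h
      have h2 := congrArg Complex.re h
      rw [Complex.exp_ofReal_mul_I_re] at h2
      simp only [Complex.neg_re, Complex.one_re] at h2
      have h3 := Real.cos_lt_cos_of_nonneg_of_le_pi hθ.1.le le_rfl hθ.2
      rw [Real.cos_pi] at h3
      linarith
    have h2 := hcl.closure_subset_iff.mpr hsub
    rw [closure_Ioo Real.pi_pos.ne] at h2
    have h3 := h2 ⟨Real.pi_pos.le, le_rfl⟩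
    simpa [Complex.exp_pi_mul_I] using h3
  · exact lt_one_ne α h0 h1 m hm x hx hx1

end Pool.Agent.N278.Br
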